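import Pool.Agent.helper62.RP.Spec
import Pool.Agent.helper78.RP.REP

set_option autoImplicit false

/-! # MP_07c750, row PUS -/

open Polynomial Filter
open Pool.Agent.QU

namespace Pool.Agent.RP

section PUS

variable {G H : Type} [Group G] [Group H]

/-- `push` as a homomorphism of algebras -/
noncomputable def PUS_hom (f : G →* H) : MonoidAlgebra ℂ G →ₐ[ℂ] MonoidAlgebra ℂ H :=
  MonoidAlgebra.lift ℂ (MonoidAlgebra ℂ H) G ((MonoidAlgebra.of ℂ H).comp f)

theorem PUS_eq (f : G →* H) (a : MonoidAlgebra ℂ G) : push f a = PUS_hom f a := by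
  unfold PUS_hom push
  rw [MonoidAlgebra.lift_apply]
  unfold Finsupp.sum
  refine Finset.sum_congr rfl fun γ _ => ?_
  simp

theorem PUS_single (f : G →* H) (γ : G) (z : ℂ) :
    push f (MonoidAlgebra.single γ z) = MonoidAlgebra.single (f γ) z := by
  rw [PUS_eq]
  unfold PUS_hom
  rw [MonoidAlgebra.lift_single]
  simp

theorem PUS_coeff [DecidableEq H] (f : G →* H) (a : MonoidAlgebra ℂ G) (x : H) :
    (push f a).coeff x = ∑ γ ∈ a.coeff.support, if f γ = x then a.coeff γ else 0 := by
  unfold push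
  rw [MonoidAlgebra.coeff_sum, Finsupp.finsetSum_apply]
  simp only [MonoidAlgebra.coeff_single, Finsupp.single_apply]

theorem PUS_adj_coeff (a : MonoidAlgebra ℂ G) (γ : G) : (adj a).coeff γ = star (a.coeff γ⁻¹) := by
  rw [REP_adj_coeff a γ⁻¹, inv_inv, star_star]

/-- `adj` as an additive homomorphism -/
noncomputable def PUS_adj (G : Type) [Group G] : MonoidAlgebra ℂ G →+ MonoidAlgebra ℂ G where
  toFun := adj
  map_zero' := by
    ext γ
    rw [PUS_adj_coeff]
    simp
  map_add' a b := by
    ext γ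
    rw [PUS_adj_coeff]
    simp [PUS_adj_coeff]

theorem PUS_adj_single (γ : G) (z : ℂ) :
    adj (MonoidAlgebra.single γ z) = MonoidAlgebra.single γ⁻¹ (star z) := by
  classical
  ext δ
  rw [PUS_adj_coeff, MonoidAlgebra.coeff_single, MonoidAlgebra.coeff_single, Finsupp.single_apply,
    Finsupp.single_apply]
  by_cases h : γ = δ⁻¹
  · rw [if_pos h, if_pos (by rw [h, inv_inv])]
  · rw [if_neg h, if_neg (fun h' => h (by rw [← h', inv_inv])), star_zero]

theorem PUS_supp (f : G →* H) (a : MonoidAlgebra ℂ G) (x : H) (hx : x ∈ (push f a).coeff.support) :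
    ∃ γ ∈ a.coeff.support, f γ = x := by
  classical
  rw [Finsupp.mem_support_iff, PUS_coeff] at hx
  obtain ⟨γ, h1, h2⟩ := Finset.exists_ne_zero_of_sum_ne_zero hx
  refine ⟨γ, h1, ?_⟩
  by_contra h3
  exact h2 (if_neg h3)

end PUS

theorem PUS : PUS_stmt := by
  classical
  intro G H _ _ f a b
  refine ⟨?_, ?_, ?_, ?_, PUS_supp f a, ?_, ?_, ?_⟩
  · rw [PUS_eq, PUS_eq, PUS_eq, map_mul]
  · rw [PUS_eq, PUS_eq, PUS_eq, map_add]
  · intro n
    rw [PUS_eq, PUS_eq, map_pow]
  · have e1 : adj (push f a) = ∑ γ ∈ a.coeff.support,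
        MonoidAlgebra.single (f γ)⁻¹ (star (a.coeff γ)) := by
      have : adj (push f a) = PUS_adj H (push f a) := rfl
      rw [this]
      unfold push
      rw [map_sum]
      exact Finset.sum_congr rfl fun γ _ => PUS_adj_single _ _
    rw [e1]
    have e2 : adj a = ∑ γ ∈ a.coeff.support, MonoidAlgebra.single γ⁻¹ (star (a.coeff γ)) := rfl
    rw [e2, PUS_eq, map_sum]
    refine Finset.sum_congr rfl fun γ _ => ?_
    rw [← PUS_eq, PUS_single, map_inv]
  · intro hinj
    have h1 : ∀ γ ∈ a.coeff.support, (push f a).coeff (f γ) = a.coeff γ := by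
      intro γ hγ
      rw [PUS_coeff]
      rw [Finset.sum_eq_single γ]
      · rw [if_pos rfl]
      · intro δ hδ hne
        rw [if_neg]
        intro h2
        exact hne (hinj (Finset.mem_coe.2 hδ) (Finset.mem_coe.2 hγ) h2)
      · intro h2
        exact absurd hγ h2
    have h2 : (push f a).coeff.support = a.coeff.support.image f := by
      ext x
      rw [Finset.mem_image]
      constructor
      · intro hx
        exact PUS_supp f a x hx
      · rintro ⟨γ, hγ, rfl⟩
        rw [Finsupp.mem_support_iff, h1 γ hγ]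
        exact Finsupp.mem_support_iff.1 hγ
    unfold l2
    rw [h2, Finset.sum_image hinj]
    congr 1
    exact Finset.sum_congr rfl fun γ hγ => by rw [h1 γ hγ]
  · intro V _ _ ρ
    have e1 : rep ρ (push f a) = ∑ γ ∈ a.coeff.support, REP_rep ρ (MonoidAlgebra.single (f γ)
        (a.coeff γ)) := by
      rw [REP_rep_eq]
      unfold push
      rw [map_sum]
    rw [e1]
    unfold rep
    refine Finset.sum_congr rfl fun γ _ => ?_
    unfold REP_rep
    rw [MonoidAlgebra.lift_single]
    rfl
  · intro N σ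
    rfl

end Pool.Agent.RP
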