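import Pool.Agent.helper62.RP.Spec

set_option autoImplicit false

/-! # MP_07c750, row HA1 -/

open Polynomial Filter
open Pool.Agent.QU

namespace Pool.Agent.RP

lemma HA1_left (L1 L2 : List Ltr) (h : FreeGroup.IsReduced (L1 ++ L2)) :
    FreeGroup.IsReduced L1 := List.IsChain.left_of_append h

lemma HA1_right (L1 L2 : List Ltr) (h : FreeGroup.IsReduced (L1 ++ L2)) :
    FreeGroup.IsReduced L2 := List.IsChain.right_of_append h

lemma HA1_cancel (L1 : List Ltr) : ∀ L2 : List Ltr, FreeGroup.IsReduced L1 → FreeGroup.IsReduced L2 →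
    ∃ P C R : List Ltr, L1 = P ++ C ∧ L2 = FreeGroup.invRev C ++ R ∧
      FreeGroup.IsReduced (P ++ R) := by
  induction L1 using List.reverseRecOn with
  | nil =>
    intro L2 _ h2
    exact ⟨[], [], L2, rfl, rfl, h2⟩
  | append_singleton L x ih =>
    intro L2 h1 h2
    rcases L2 with _ | ⟨y, L2⟩
    · refine ⟨L ++ [x], [], [], by simp, rfl, ?_⟩
      rwa [List.append_nil]
    · by_cases hxy : y = (x.1, !x.2)
      · obtain ⟨P, C, R, e1, e2, e3⟩ := ih L2 (HA1_left L [x] h1)
          (HA1_right [y] L2 h2)
        refine ⟨P, C ++ [x], R, ?_, ?_, e3⟩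
        · rw [e1, List.append_assoc]
        · rw [FreeGroup.invRev_append, e2, hxy]
          simp [FreeGroup.invRev]
      · refine ⟨L ++ [x], [], y :: L2, by simp, by simp [FreeGroup.invRev], ?_⟩
        have h3 : FreeGroup.IsReduced ((L ++ [x]) ++ (y :: L2)) := by
          unfold FreeGroup.IsReduced
          rw [List.isChain_append]
          refine ⟨h1, h2, ?_⟩
          intro a ha b hb
          simp at ha hb
          subst ha hb
          intro h4
          by_contra h5
          apply hxy
          have h6 : ∀ u v : Bool, ¬ u = v → v = !u := by decide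
          exact Prod.ext h4.symm (h6 _ _ h5)
        exact h3

lemma HA1_norm_mk (L : List Ltr) (h : FreeGroup.IsReduced L) : (FreeGroup.mk L).norm = L.length := by
  unfold FreeGroup.norm
  rw [FreeGroup.toWord_mk, h.reduce_eq]

lemma HA1_toWord (x y : F2) (h : (x * y).norm = x.norm + y.norm) :
    (x * y).toWord = x.toWord ++ y.toWord := by
  apply (FreeGroup.toWord_mul_sublist x y).eq_of_length
  rw [List.length_append]
  exact h

theorem HA1 : HA1_stmt := by
  constructor
  · intro s t
    obtain ⟨P, C, R, e1, e2, e3⟩ := HA1_cancel s.toWord t.toWord FreeGroup.isReduced_toWord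
      FreeGroup.isReduced_toWord
    have r1 : FreeGroup.IsReduced (P ++ C) := e1 ▸ FreeGroup.isReduced_toWord
    have r2 : FreeGroup.IsReduced (FreeGroup.invRev C ++ R) := e2 ▸ FreeGroup.isReduced_toWord
    have rP : FreeGroup.IsReduced P := HA1_left _ _ r1
    have rC : FreeGroup.IsReduced C := HA1_right _ _ r1
    have rR : FreeGroup.IsReduced R := HA1_right _ _ r2
    have es : s = FreeGroup.mk P * FreeGroup.mk C := by
      rw [FreeGroup.mul_mk, ← e1, FreeGroup.mk_toWord]
    have et : t = (FreeGroup.mk C)⁻¹ * FreeGroup.mk R := by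
      rw [FreeGroup.inv_mk, FreeGroup.mul_mk, ← e2, FreeGroup.mk_toWord]
    refine ⟨FreeGroup.mk P, FreeGroup.mk C, FreeGroup.mk R, es, et, ?_, ?_, ?_⟩
    · rw [HA1_norm_mk P rP, HA1_norm_mk C rC, ← List.length_append, ← e1]
      rfl
    · rw [HA1_norm_mk R rR, HA1_norm_mk C rC]
      have : t.norm = (FreeGroup.invRev C ++ R).length := by rw [← e2]; rfl
      rw [this, List.length_append, FreeGroup.invRev_length]
    · have e4 : s * t = FreeGroup.mk (P ++ R) := by
        rw [es, et, ← FreeGroup.mul_mk]
        group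
      rw [e4, HA1_norm_mk _ e3, HA1_norm_mk P rP, HA1_norm_mk R rR, List.length_append]
  · intro p c p' c' h h1 h2 h3
    have k1 := HA1_toWord p c h1
    have k2 := HA1_toWord p' c' h2
    rw [h, k2] at k1
    obtain ⟨k3, k4⟩ := List.append_inj k1 h3.symm
    exact ⟨FreeGroup.toWord_injective k3.symm, FreeGroup.toWord_injective k4.symm⟩

end Pool.Agent.RP
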