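import Pool.Agent.helper62.RP.Spec

set_option autoImplicit false

/-! # MP_07c750, row NUM -/

open Polynomial Filter
open Pool.Agent.QU

namespace Pool.Agent.RP

lemma NUM_bound (q M m : ℕ) (hM : M = 2 * m) (hm : 1 ≤ m) :
    ((((8 * (m * q + 1) + 1) * (M * q) : ℕ) : ℝ) + 1) ^ 2 ≤ 196 * ((q : ℝ) + 1) ^ 4 * (M : ℝ) ^ 4 := by
  have h1 : (((8 * (m * q + 1) + 1) * (M * q) : ℕ) : ℝ) + 1 ≤ 14 * ((q : ℝ) + 1) ^ 2 * (M : ℝ) ^ 2 := by
    have hm' : (1 : ℝ) ≤ m := by exact_mod_cast hm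
    have hq : (0 : ℝ) ≤ q := Nat.cast_nonneg q
    rw [hM]
    push_cast
    have h2 : (m : ℝ) ≤ (m : ℝ) ^ 2 := by nlinarith
    have h3 : 0 ≤ (q : ℝ) * ((m : ℝ) ^ 2 - m) := mul_nonneg hq (by linarith)
    nlinarith [mul_nonneg hq hq, mul_nonneg (mul_nonneg hq hq) (sq_nonneg (m : ℝ)),
      mul_nonneg hq (sq_nonneg (m : ℝ))]
  calc _ ≤ (14 * ((q : ℝ) + 1) ^ 2 * (M : ℝ) ^ 2) ^ 2 := pow_le_pow_left₀ (by positivity) h1 2
    _ = _ := by ring

theorem NUM : NUM_stmt := by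
  intro q R ε hR hε
  rcases hR.eq_or_lt with h0 | hpos
  · refine Filter.Eventually.of_forall fun j x hx h => ?_
    rw [← h0, zero_pow (by positivity), mul_zero] at h
    have h1 : x = 0 := by
      by_contra h2
      have h3 : 0 < x := lt_of_le_of_ne hx (Ne.symm h2)
      have h4 := pow_pos h3 (2 ^ (j + 1))
      linarith
    rw [h1, ← h0]
    linarith
  · have hr : 1 < 1 + ε / R := by
      have : 0 < ε / R := div_pos hε hpos
      linarith
    have h1 := tendsto_pow_const_div_const_pow_of_one_lt 4 hr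
    have hc : (0 : ℝ) < 1 / (196 * ((q : ℝ) + 1) ^ 4) := by positivity
    have h2 := h1.eventually_lt_const hc
    have h3 : Tendsto (fun j : ℕ => 2 ^ (j + 1)) atTop atTop :=
      (tendsto_pow_atTop_atTop_of_one_lt (by norm_num : 1 < 2)).comp (tendsto_add_atTop_nat 1)
    filter_upwards [h3.eventually h2] with j hj x hx h
    by_contra h4
    push Not at h4
    set M : ℕ := 2 ^ (j + 1) with hMdef
    have hM : M = 2 * 2 ^ j := by rw [hMdef, pow_succ]; ring
    have h5 := NUM_bound q M (2 ^ j) hM Nat.one_le_two_pow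
    have hrM : 0 < (1 + ε / R) ^ M := by positivity
    have h6 : 196 * ((q : ℝ) + 1) ^ 4 * (M : ℝ) ^ 4 < (1 + ε / R) ^ M := by
      rw [div_lt_div_iff₀ hrM (by positivity)] at hj
      linarith
    have h7 : (R + ε) ^ M < x ^ M := pow_lt_pow_left₀ h4 (by positivity) (by positivity)
    have h8 : (R + ε) ^ M = (1 + ε / R) ^ M * R ^ M := by
      rw [← mul_pow]
      congr 1
      field_simp
    have hRM : 0 < R ^ M := by positivity
    have h9 : x ^ M < (1 + ε / R) ^ M * R ^ M :=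
      h.trans_lt (mul_lt_mul_of_pos_right (h5.trans_lt h6) hRM)
    rw [← h8] at h9
    exact lt_asymm h7 h9

end Pool.Agent.RP
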