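import Pool.Agent.helper62.RP.Spec

set_option autoImplicit false

/-! # MP_07c750, row HAA: Haagerup's inequality -/

open Polynomial Filter
open Pool.Agent.QU

namespace Pool.Agent.RP

lemma HAA_l2_nonneg (u : MonoidAlgebra ℂ F2) : 0 ≤ l2 u := Real.sqrt_nonneg _

lemma HAA_l2_sq (u : MonoidAlgebra ℂ F2) : l2 u ^ 2 = ∑ γ ∈ u.coeff.support, ‖u.coeff γ‖ ^ 2 :=
  Real.sq_sqrt (Finset.sum_nonneg fun _ _ => by positivity)

lemma HAA_sub (u : MonoidAlgebra ℂ F2) (U : Finset F2) : ∑ x ∈ U, ‖u.coeff x‖ ^ 2 ≤ l2 u ^ 2 := by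
  classical
  rw [HAA_l2_sq]
  have h1 : ∑ x ∈ U, ‖u.coeff x‖ ^ 2 = ∑ x ∈ U.filter (fun x => x ∈ u.coeff.support), ‖u.coeff x‖ ^ 2 := by
    rw [Finset.sum_filter]
    refine Finset.sum_congr rfl fun x _ => ?_
    split_ifs with h
    · rfl
    · rw [Finsupp.notMem_support_iff.1 h]
      simp
  rw [h1]
  refine Finset.sum_le_sum_of_subset_of_nonneg (fun x hx => (Finset.mem_filter.1 hx).2)
    fun _ _ _ => by positivity

/-- the quadratic form -/
lemma HAA_form (f u : MonoidAlgebra ℂ F2) : l2 (f * u) ^ 2 ≤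
    ∑ s ∈ f.coeff.support, ∑ t ∈ u.coeff.support,
      ‖f.coeff s‖ * ‖u.coeff t‖ * ‖(f * u).coeff (s * t)‖ := by
  classical
  rw [HAA_l2_sq]
  have h1 : ∀ x ∈ (f * u).coeff.support, ‖(f * u).coeff x‖ ^ 2 ≤
      ∑ s ∈ f.coeff.support, ∑ t ∈ u.coeff.support,
        if s * t = x then ‖f.coeff s‖ * ‖u.coeff t‖ * ‖(f * u).coeff (s * t)‖ else 0 := by
    intro x _
    have h2 : ‖(f * u).coeff x‖ ≤ ∑ s ∈ f.coeff.support, ∑ t ∈ u.coeff.support,
        if s * t = x then ‖f.coeff s‖ * ‖u.coeff t‖ else 0 := by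
      rw [MonoidAlgebra.coeff_mul]
      refine (norm_sum_le _ _).trans (Finset.sum_le_sum fun s _ => ?_)
      refine (norm_sum_le _ _).trans (Finset.sum_le_sum fun t _ => ?_)
      show ‖(if s * t = x then f.coeff s * u.coeff t else 0)‖ ≤ _
      split_ifs
      · rw [norm_mul]
      · rw [norm_zero]
    calc ‖(f * u).coeff x‖ ^ 2 = ‖(f * u).coeff x‖ * ‖(f * u).coeff x‖ := sq _
      _ ≤ (∑ s ∈ f.coeff.support, ∑ t ∈ u.coeff.support,
        if s * t = x then ‖f.coeff s‖ * ‖u.coeff t‖ else 0) * ‖(f * u).coeff x‖ :=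
          mul_le_mul_of_nonneg_right h2 (norm_nonneg _)
      _ = _ := by
        rw [Finset.sum_mul]
        refine Finset.sum_congr rfl fun s _ => ?_
        rw [Finset.sum_mul]
        refine Finset.sum_congr rfl fun t _ => ?_
        split_ifs with h
        · rw [h]
        · rw [zero_mul]
  refine (Finset.sum_le_sum h1).trans ?_
  rw [Finset.sum_comm]
  refine Finset.sum_le_sum fun s _ => ?_
  rw [Finset.sum_comm]
  refine Finset.sum_le_sum fun t _ => ?_
  rw [Finset.sum_ite_eq]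
  split_ifs
  · exact le_rfl
  · positivity

theorem HAA (h1 : RNB_stmt) (h2 : HA2_stmt) : HAA_stmt := by
  classical
  intro f ℓ hf
  refine (h1 F2 f 1).2.2.1 _ (mul_nonneg (by positivity) (HAA_l2_nonneg f)) fun u => ?_
  have hZ := HAA_l2_nonneg (f * u)
  have hU := HAA_l2_nonneg u
  have hF := HAA_l2_nonneg f
  have h3 : l2 (f * u) ^ 2 ≤ (((ℓ : ℝ) + 1) ^ 2 * l2 f * l2 u) * l2 (f * u) := by
    refine (HAA_form f u).trans ?_
    have h4 : ∑ s ∈ f.coeff.support, ∑ t ∈ u.coeff.support,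
          ‖f.coeff s‖ * ‖u.coeff t‖ * ‖(f * u).coeff (s * t)‖ =
        ∑ k ∈ Finset.range (ℓ + 1), ∑ s ∈ f.coeff.support.filter (fun s => s.norm = k),
          ∑ t ∈ u.coeff.support, ‖f.coeff s‖ * ‖u.coeff t‖ * ‖(f * u).coeff (s * t)‖ := by
      symm
      apply Finset.sum_fiberwise_of_maps_to
      intro s hs
      rw [Finset.mem_range]
      exact Nat.lt_succ_of_le (hf s hs)
    rw [h4]
    have h5 : ∀ k ∈ Finset.range (ℓ + 1), ∑ s ∈ f.coeff.support.filter (fun s => s.norm = k),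
          ∑ t ∈ u.coeff.support, ‖f.coeff s‖ * ‖u.coeff t‖ * ‖(f * u).coeff (s * t)‖ ≤
        ((ℓ : ℝ) + 1) * l2 f * l2 u * l2 (f * u) := by
      intro k hk
      have hk' : (k : ℝ) ≤ ℓ := by
        exact_mod_cast Nat.lt_succ_iff.1 (Finset.mem_range.1 hk)
      have h6 := h2 (fun s => ‖f.coeff s‖) (fun t => ‖u.coeff t‖) (fun x => ‖(f * u).coeff x‖)
        (f.coeff.support.filter (fun s => s.norm = k)) u.coeff.support k (l2 (f * u))
        (fun _ => norm_nonneg _) (fun _ => norm_nonneg _) (fun _ => norm_nonneg _) hZ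
        (HAA_sub (f * u)) (fun s hs => (Finset.mem_filter.1 hs).2)
      refine h6.trans ?_
      have h7 : Real.sqrt (∑ s ∈ f.coeff.support.filter (fun s => s.norm = k), ‖f.coeff s‖ ^ 2) ≤
          l2 f := by
        unfold l2
        apply Real.sqrt_le_sqrt
        exact Finset.sum_le_sum_of_subset_of_nonneg (Finset.filter_subset _ _)
          fun _ _ _ => by positivity
      have h8 : Real.sqrt (∑ t ∈ u.coeff.support, ‖u.coeff t‖ ^ 2) = l2 u := rfl
      rw [h8]
      refine mul_le_mul_of_nonneg_right (mul_le_mul_of_nonneg_right ?_ hU) hZ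
      exact mul_le_mul (by linarith) h7 (Real.sqrt_nonneg _) (by positivity)
    refine (Finset.sum_le_sum h5).trans (le_of_eq ?_)
    rw [Finset.sum_const, Finset.card_range, nsmul_eq_mul]
    push_cast
    ring
  rcases hZ.eq_or_lt with h | h
  · rw [← h]
    positivity
  · rw [sq] at h3
    exact le_of_mul_le_mul_right h3 h

end Pool.Agent.RP
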