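import Pool.Agent.helper62.RP.Spec

set_option autoImplicit false

/-! # MP_07c750, row PS1 -/

open Polynomial Filter
open Pool.Agent.QU

namespace Pool.Agent.RP

/-- one application of the first passage decomposition, with norms -/
lemma PS1_step (h1 : BAL_stmt) (h2 : TRE_stmt) (h3 : FPD_stmt) (a : MonoidAlgebra ℂ F2) (q : ℕ)
    (ha : ∀ t ∈ a.coeff.support, t.norm ≤ q) (p : ℕ) (z y s : F2) (hs : s ∈ ball q)
    (hz : Sep z y) (F : ℕ → F2 → ℝ)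
    (hF : ∀ j, j ≤ p → ∀ s' ∈ ball q, ‖(a ^ (p - j)).coeff (s'⁻¹ * y)‖ ≤ F j s') :
    ‖(a ^ p).coeff (s⁻¹ * z⁻¹ * y)‖ ≤
      ∑ j ∈ Finset.range (p + 1), ∑ s' ∈ ball q, ‖kil a q s' j (z * s)‖ * F j s' := by
  have h4 : (z * s).norm ≤ q ∨ Sep (z * s) y := by
    apply h2.2.2 z y (z * s) q hz
    rw [inv_mul_cancel_left]
    exact (h1 q s).1 hs
  have h5 := h3 a q ha p (z * s) y h4
  have h6 : (z * s)⁻¹ * y = s⁻¹ * z⁻¹ * y := by group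
  rw [h6] at h5
  rw [h5]
  refine (norm_sum_le _ _).trans (Finset.sum_le_sum fun j hj => ?_)
  refine (norm_sum_le _ _).trans (Finset.sum_le_sum fun s' hs' => ?_)
  rw [norm_mul]
  exact mul_le_mul_of_nonneg_left (hF j (Nat.lt_succ_iff.1 (Finset.mem_range.1 hj)) s' hs')
    (norm_nonneg _)

theorem PS1 (h1 : BAL_stmt) (h2 : TRE_stmt) (h3 : FPD_stmt) : PS1_stmt := by
  intro a q ha g u k p hk s1 s2 s3
  have hone : (1 : F2) ∈ ball q := by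
    rw [h1 q 1, FreeGroup.norm_one]
    exact Nat.zero_le _
  have e1 : (g * u * g⁻¹) ^ k = (1 : F2)⁻¹ * (g⁻¹)⁻¹ * (u ^ k * g⁻¹) := by
    rw [conj_pow]
    group
  rw [e1]
  have h := PS1_step h1 h2 h3 a q ha p g⁻¹ (u ^ k * g⁻¹) 1 hone s1
    (fun i s₀ => ∑ j ∈ Finset.range (p - i + 1), ∑ s₁ ∈ ball q,
        ‖kil a q s₁ j (u⁻¹ * s₀)‖ * ∑ l ∈ Finset.range (p - i - j + 1), ∑ s₂ ∈ ball q,
            ‖kil a q s₂ l ((u ^ (k - 1))⁻¹ * s₁)‖ * ‖(a ^ (p - i - j - l)).coeff (s₂⁻¹ * g⁻¹)‖) ?_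
  · refine h.trans (le_of_eq ?_)
    refine Finset.sum_congr rfl fun i _ => Finset.sum_congr rfl fun s₀ _ => ?_
    rw [mul_one, Finset.mul_sum]
    refine Finset.sum_congr rfl fun j _ => ?_
    rw [Finset.mul_sum]
    refine Finset.sum_congr rfl fun s₁ _ => ?_
    rw [Finset.mul_sum, Finset.mul_sum]
    refine Finset.sum_congr rfl fun l _ => ?_
    rw [Finset.mul_sum, Finset.mul_sum]
  · intro i _ s₀ hs₀
    have e2 : s₀⁻¹ * (u ^ k * g⁻¹) = s₀⁻¹ * (u⁻¹)⁻¹ * (u ^ (k - 1) * g⁻¹) := by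
      obtain ⟨m, rfl⟩ : ∃ m, k = m + 1 := ⟨k - 1, by omega⟩
      rw [Nat.add_sub_cancel, pow_succ', inv_inv]
      group
    rw [e2]
    refine PS1_step h1 h2 h3 a q ha (p - i) u⁻¹ (u ^ (k - 1) * g⁻¹) s₀ hs₀ s2
      (fun j s₁ => ∑ l ∈ Finset.range (p - i - j + 1), ∑ s₂ ∈ ball q,
            ‖kil a q s₂ l ((u ^ (k - 1))⁻¹ * s₁)‖ * ‖(a ^ (p - i - j - l)).coeff (s₂⁻¹ * g⁻¹)‖) ?_
    intro j _ s₁ hs₁
    have e3 : s₁⁻¹ * (u ^ (k - 1) * g⁻¹) = s₁⁻¹ * ((u ^ (k - 1))⁻¹)⁻¹ * g⁻¹ := by group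
    rw [e3]
    exact PS1_step h1 h2 h3 a q ha (p - i - j) (u ^ (k - 1))⁻¹ g⁻¹ s₁ hs₁ s3
      (fun l s₂ => ‖(a ^ (p - i - j - l)).coeff (s₂⁻¹ * g⁻¹)‖) fun l _ s₂ _ => le_rfl

end Pool.Agent.RP
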